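import Pool.Agent.Helper3.GU.OneVar
import Pool.Graph.R_pool_sql_team_seeded_b677cdb8.Results.MP_b197b4_nt.CubicHigherChowH3

/-!
# Étale motivic cohomology in the weight of the dimension and finitely many graph hypersurfaces

Let `X` be **one** smooth projective connected variety of dimension `d` over a finite field `𝔽_q`,
`q = p^r` (these are the regular projective arithmetic schemes of characteristic `p`). It is considered as a
smooth projective scheme `S` over `𝔽_p`. It is known that the map `H^i(X_et, ℤ(d)) → H^i(X, ℚ(d))` has a
finite kernel and a finite cokernel for `i < 2 d`, and that `H^{2d}(X_et, ℤ(d))` is finitely generated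
(`IsWeightDim`; Milne's duality and the theorem of class field theory). So Q1 for `X`, that is: all groups
`H^i(X_et, ℤ(d))`, `i ≤ 2 d`, are finitely generated, is equivalent to `H^i(X, ℚ(d)) = 0` for all `i < 2 d`
(`IsWeightDim`).

For a smooth projective scheme `Y` over `𝔽_p` let `H^{(m)}(Y)` be the sum of the groups `H^j(Y, ℚ(m))`,
`j < 2 m`, of rational motivic cohomology (rational higher Chow groups; they are zero by the conjecture of
Parshin), and let `B^m(Y) ⊆ H^{(m)}(Y)` be the `X`-part: the subspace generated by the classes
`c_*(x) = pr_{Y*}(c · pr_S^* x)` for the elements `x` of `H^{(d)}(S) = ⨁_{i < 2d} H^i(X, ℚ(d))` and the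
cycles `c` on `S × Y`. This is an additive functor of the Chow motive of `Y`, and `B^m(Y) = 0` for all `m` if
and only if all `c_*(x)` are zero (`Killed`). For a separated scheme `Z` of finite type over `𝔽_p` let `W(Z)`
be its weight complex (Gillet, Soulé, Bondarko; `W(Z) = h(Z)` for smooth projective `Z`), and put
`B^{m,i}(Z) = H^i(B^m(W(Z)))`, `A^{m,i}(Z) = 0`. Then `BijAll C Z`, the bijectivity of the maps
`A^{m,i}(Z) → B^{m,i}(Z)`, says that the `X`-part of the motivic cohomology of the weight complex of `Z`
is zero.

For a simple graph `G` with the vertices `0, …, n` let `K_G` be the Kirchhoff polynomial (the sum over the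
spanning trees of the products of the variables of their edges) and `Ψ_G` the first Symanzik polynomial
(of the Feynman integrals).

**Theorem.** There is a finite list `L` of graphs with at most three edges at each vertex (graphs obtained
by leaving out and subdividing edges of Feynman graphs of the `φ³`-theory) which depends only on `S` such
that the following statements are equivalent.

* Q1 holds for `X`: the groups `H^i(X_et, ℤ(d))` are finitely generated for all `i ≤ 2 d`.
* The `X`-part is zero for all separated schemes `Z` of finite type over `𝔽_p`.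
* It is zero for the complements of the finitely many graph hypersurfaces `K_G = 0`, `G` in `L`, in the
  affine spaces.
* It is zero for the finitely many graph hypersurfaces `K_G = 0`, `G` in `L`.
* It is zero for their complements in the tori, `G` in `L`.
* It is zero for the complements in the tori of the finitely many hypersurfaces `Ψ_G = 0`, `G` in `L`.
-/

set_option autoImplicit false

open AlgebraicGeometry Pool.Agent.Y116.UV Pool.Agent.Z125.UN Pool.Agent.Q193.LT
  Pool.Agent.Helper3.GU Pool.Agent.Results.MP_b197b4_nt.CubicHigherChowH3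

universe w

namespace Pool.Agent.Results.MP_b197b4_nt.FinitelyManyGraphs

/-- A connected smooth projective variety `X` over a finite field of characteristic `p`, considered as a
scheme `S` over `𝔽_p`, and the rational motivic cohomology of the smooth projective schemes over `𝔽_p`. -/
structure WeightData (p : ℕ) [Fact p.Prime] (S : Sch (ZMod p)) where
  /-- the dimension of `X` -/
  d : ℤ
  /-- `H m Y = ⨁_{j < 2m} H^j(Y, ℚ(m))` -/
  H : ℤ → Sch (ZMod p) → ModuleCat.{0} ℚ
  /-- the algebraic cycles on `S × Y` which map `H^i(S, ℚ(d))` to `H^j(Y, ℚ(m))`, `j - 2 m = i - 2 d` -/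
  Cyc : ℤ → Sch (ZMod p) → Type
  /-- the operation `x ↦ c_*(x)` of the cycle `c` -/
  act : ∀ {m : ℤ} {Y : Sch (ZMod p)}, Cyc m Y → H d S →ₗ[ℚ] H m Y
  /-- the diagonal of `S × S` -/
  diag : Cyc d S
  /-- `H^i(X, ℚ(d))` -/
  W : ℤ → ModuleCat.{0} ℚ
  /-- `H^i(X_et, ℤ(d))` -/
  G : ℤ → Type
  /-- the group structure of `H^i(X_et, ℤ(d))` -/
  grp : ∀ i, AddCommGroup (G i)

variable {p : ℕ} [Fact p.Prime] {S : Sch (ZMod p)}

instance (D : WeightData p S) (i : ℤ) : AddCommGroup (D.G i) := D.grp i

/-- Known facts: the diagonal operates as the identity, `H^{(d)}(S)` is the direct sum of the groups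
`H^i(X, ℚ(d))`, `i < 2 d`, and the relation between étale and rational motivic cohomology. -/
structure IsWeight (D : WeightData p S) : Prop where
  act_diag : ∀ x, D.act D.diag x = x
  dec : Nonempty (D.H D.d S ≃+ (Π₀ i : {i : ℤ // i < 2 * D.d}, D.W i.1))
  weight : IsWeightDim D.d D.G fun i => D.W i

/-- The statement of Q1 for the variety `X`: the groups `H^i(X_et, ℤ(d))` are finitely generated for all
`i ≤ 2 d`. -/
def Question (D : WeightData p S) : Prop := ∀ i : ℤ, i ≤ 2 * D.d → AddGroup.FG (D.G i)

/-- The images in the motivic cohomology of `Y` of the elements of `H^i(X, ℚ(d))`, `i < 2 d`, are zero. -/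
def Killed (D : WeightData p S) (Y : Sch (ZMod p)) : Prop :=
  ∀ m, ∀ c : D.Cyc m Y, ∀ x, D.act c x = 0

lemma question_iff {D : WeightData p S} (h : IsWeight D) : Question D ↔ ∀ x : D.H D.d S, x = 0 := by
  obtain ⟨e⟩ := h.dec
  have h1 : Question D ↔ ∀ i : ℤ, i < 2 * D.d → Subsingleton (D.W i) := fg_iff h.weight
  rw [h1]
  constructor
  · intro h2 x
    apply e.injective
    rw [map_zero]
    apply DFinsupp.ext
    intro i
    have := h2 i.1 i.2
    exact Subsingleton.elim _ _
  · intro h2 i hi
    classical
    refine ⟨fun a b => ?_⟩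
    have h3 : ∀ a : D.W i, a = 0 := by
      intro a
      have h4 : DFinsupp.single (β := fun i : {i : ℤ // i < 2 * D.d} => (D.W i.1 : Type)) ⟨i, hi⟩ a = 0 := by
        apply e.symm.injective
        rw [h2 (e.symm _), map_zero]
      have h5 := DFunLike.congr_fun h4 ⟨i, hi⟩
      rw [DFinsupp.single_eq_same] at h5
      exact h5
    rw [h3 a, h3 b]

/-- **Étale motivic cohomology of one variety and finitely many graph hypersurfaces.** See the
explanations above. -/
theorem result {p : ℕ} [Fact p.Prime] {S : Sch (ZMod p)} (hS : SmoothProj S) :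
    ∃ L : List (Σ n : ℕ, SimpleGraph (Fin (n + 1))), (∀ G ∈ L, Subcubic G.2) ∧
      ∀ (D : WeightData p S) (C : PairData.{w} (ZMod p) (ℤ × ℤ) ℚ), IsWeight D → IsWeightPair C →
        WeightGen C → BijAll C (aff (ZMod p) (ZMod p)) →
        (∀ Y, SmoothProj Y → (BijAll C Y ↔ Killed D Y)) →
        List.TFAE [Question D,
          ∀ X : Sch (ZMod p), FT True X → BijAll C X,
          ∀ G ∈ L, BijAll C (graphS (ZMod p) G.2),
          ∀ G ∈ L, BijAll C (graphH (ZMod p) G.2),
          ∀ G ∈ L, BijAll C (graphT (ZMod p) G.2),
          ∀ G ∈ L, BijAll C (feynmanT (ZMod p) G.2)] := by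
  obtain ⟨L, hL, h⟩ := list_pair (frac_of_surj ZMod.intCast_surjective) S hS
  refine ⟨L, hL, fun D C hD hC hg h1 bij => h C hg hC h1 (Question D) (fun h => ?_)
    fun h Y hY => (bij Y hY).mpr fun m c x => ?_⟩
  · refine (question_iff hD).mpr fun x => ?_
    have h1 := (bij S hS).mp h D.d D.diag x
    rwa [hD.act_diag] at h1
  · rw [(question_iff hD).mp h x, map_zero]

end Pool.Agent.Results.MP_b197b4_nt.FinitelyManyGraphs
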