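import Pool.Agent.Helper13.RM.CList

/-!
# Étale motivic cohomology in the weight of the dimension, one degree and one dimension at a time, and
configurations of points in the plane

For an arithmetic scheme `X` (separated and of finite type over `ℤ`) let `H j X = H^j(X_et, ℤ^c(0))` be the
étale cohomology of the cycle complex of dimension zero. For regular connected `X` of dimension `d` it is
`H^{2d+j}(X_et, ℤ(d))`, and Q1 for proper `X` says that these groups are finitely generated for `j ≤ 0`. The
properties which are used are in `Theory`: isomorphism invariance, the empty scheme, the exactness of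
`H^j(Z) → H^j(X) → H^j(X ∖ Z)` for closed `Z`, and the formula `H^i(X_et, ℤ(d)) ≅ H^{i-2d}(X_et, ℤ^c(0))` for
regular connected `X` of dimension `d`.

A matroid `M` of rank three on the set `Fin 4 ⊕ Fin m` is framed if any three of the four elements of
`Fin 4` form a base; it is simple if any two elements are independent. Let `modS ℤ M` be the moduli space
over `ℤ` of the configurations of `m + 4` different points in the projective plane in which exactly the
triples prescribed by `M` are collinear, modulo projective transformations. In coordinates: the first four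
points are the points of `e_1, e_2, e_3, e_1 + e_2 + e_3`, and the other ones have normalised coordinates
`(x, y, 1)` or `(x, 1, 0)`; three vectors have an invertible determinant if they are a base of `M`, and
the determinant zero otherwise. `SmoothModZ d M` says that `M` is framed and simple and that `modS ℤ M` is
integral, smooth over `ℤ` or over a prime field (so that it is regular), and of dimension at most `d`.

**Theorem.** (1) For each proper regular connected arithmetic scheme `X` of dimension `d` there is a finite
list of such matroids `M_1, …, M_r`, whose moduli spaces are regular of dimension at most `d`, such that for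
all `i ≤ d + 1` (and all theories with the properties above) the group `H^i(X_et, ℤ(d))` is finitely generated
if the groups `H^{i-2d}((modS ℤ M_s)_et, ℤ^c(0))` are finitely generated.

(2) For each `d` and each degree `j ≤ 1 - d` the groups `H^j(X_et, ℤ^c(0))` are finitely generated for all
arithmetic schemes `X` of dimension at most `d` if and only if they are finitely generated for the moduli
spaces `X = modS ℤ M` with `SmoothModZ d M`.

(3) If these groups are finitely generated for all `j ≤ 1 - d` and all `M` with `SmoothModZ d M` then
`H^i(X_et, ℤ(d))` is finitely generated for all `i ≤ d + 1` and all proper regular connected `X` of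
dimension `d`.

So only the part `i ≤ d + 1` of Q1 is treated (it contains the vanishing for `i < 0`). In this range étale and
Zariski motivic cohomology agree, and the groups of open schemes are expected to be finitely generated, too.
For `d + 2 ≤ i ≤ 2d` this is not the case: for instance `H^4(U_et, ℤ(2)) = H^0(U_et, ℤ^c(0))` is not finitely
generated if `U` is the complement of three lines in general position in the projective plane over a finite
field (its geometric `H^2(U, ℚ_l(2))` contains classes of weight zero).

The reductions in the library (complements of arrangements, cubic hypersurfaces) need all the dimensions, and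
several degrees. The proof uses that an arithmetic scheme can be decomposed by finitely many closed-open
decompositions into moduli spaces `modS ℤ M` which are smooth over `ℤ` or over a prime field
(`Pool.Agent.Helper13.RM`, `config_listZ`), a version of the universality theorem of Mnëv which preserves
the dimension.
-/

set_option autoImplicit false

open CategoryTheory AlgebraicGeometry Pool.Agent.Y116.UV Pool.Agent.Helper13.RM

namespace Pool.Agent.Results.MP_b197b4_nt.PlanarConfigurations

/-- The dimension of `X` is `d`, and `X` is regular and connected. -/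
structure IsRegular (X : Sch ℤ) (d : ℕ) : Prop where
  regular : ∀ x : X.left, IsRegularLocalRing (X.left.presheaf.stalk x)
  connected : ConnectedSpace X.left
  dim : topologicalKrullDim X.left = d

/-- The properties which are used of the groups `H j X = H^j(X_et, ℤ^c(0))` of arithmetic schemes and
`M d i X = H^i(X_et, ℤ(d))` of regular connected arithmetic schemes of dimension `d`. -/
structure Theory where
  /-- `H^j(X_et, ℤ^c(0))` -/
  H : ℤ → Sch ℤ → Type
  grp : ∀ j X, AddCommGroup (H j X)
  iso : ∀ {X Y : Sch ℤ}, FT True X → Nonempty (X ≅ Y) → ∀ j, Nonempty (H j X ≃+ H j Y)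
  empty : ∀ X : Sch ℤ, IsEmpty X.left → ∀ j, Subsingleton (H j X)
  exact : ∀ {Z X U : Sch ℤ} (z : Z ⟶ X) (u : U ⟶ X), FT True X → IsTriple z u → ∀ j,
    ∃ (f : H j Z →+ H j X) (g : H j X →+ H j U), Function.Exact f g
  /-- `H^i(X_et, ℤ(d))` -/
  M : ℕ → ℤ → Sch ℤ → Type
  grpM : ∀ d i X, AddCommGroup (M d i X)
  comparison : ∀ (d : ℕ) (X : Sch ℤ), FT True X → IsRegular X d → ∀ i : ℤ,
    Nonempty (M d i X ≃+ H (i - 2 * d) X)

attribute [instance] Theory.grp Theory.grpM

lemma fg_equiv {A B : Type} [AddCommGroup A] [AddCommGroup B] (e : A ≃+ B) (h : AddGroup.FG A) :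
    AddGroup.FG B := AddGroup.fg_of_surjective (f := (e : A →+ B)) e.surjective

lemma fg_exact {A B C : Type} [AddCommGroup A] [AddCommGroup B] [AddCommGroup C] (f : A →+ B)
    (g : B →+ C) (h : Function.Exact f g) (hA : AddGroup.FG A) (hC : AddGroup.FG C) :
    AddGroup.FG B := by
  have iA : Module.Finite ℤ A := Module.Finite.iff_addGroup_fg.mpr hA
  have iC : Module.Finite ℤ C := Module.Finite.iff_addGroup_fg.mpr hC
  have : IsNoetherian ℤ A := isNoetherian_of_isNoetherianRing_of_finite ℤ A
  have : IsNoetherian ℤ C := isNoetherian_of_isNoetherianRing_of_finite ℤ C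
  have h1 : IsNoetherian ℤ B :=
    isNoetherian_of_range_eq_ker f.toIntLinearMap g.toIntLinearMap (by
      ext x
      exact (h x).symm)
  exact Module.Finite.iff_addGroup_fg.mp inferInstance

/-- Finite generation in one degree is closed under cutting. -/
lemma cut_degree (T : Theory) (j : ℤ) : Cut True fun X : Sch ℤ => AddGroup.FG (T.H j X) where
  iso hX e h := by
    obtain ⟨e⟩ := T.iso hX e j
    exact fg_equiv e h
  empty X hX := by
    have h := T.empty X hX j
    exact AddGroup.fg_of_finite
  total z u hX ht hZ hU := by
    obtain ⟨f, g, h⟩ := T.exact z u hX ht j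
    exact fg_exact f g h hZ hU

lemma fg_of_cycle (T : Theory) {X : Sch ℤ} {d : ℕ} (hX : FT True X) (h : IsRegular X d) (i : ℤ)
    (h1 : AddGroup.FG (T.H (i - 2 * d) X)) : AddGroup.FG (T.M d i X) := by
  obtain ⟨e⟩ := T.comparison d X hX h i
  exact fg_equiv e.symm h1

lemma ft_of_proper {X : Sch ℤ} (h : IsProper X.hom) : FT True X :=
  ⟨inferInstance, inferInstance, fun _ => inferInstance⟩

/-- **Étale motivic cohomology in the weight of the dimension and moduli spaces of planar
configurations.** See the explanations above. -/
theorem result :
    (∀ (X : Sch ℤ) (d : ℕ), IsProper X.hom → IsRegular X d →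
      ∃ L : List Mat, (∀ M ∈ L, SmoothModZ d M.2) ∧ ∀ (T : Theory) (i : ℤ), i ≤ d + 1 →
        (∀ M ∈ L, AddGroup.FG (T.H (i - 2 * d) (modS ℤ M.2))) → AddGroup.FG (T.M d i X)) ∧
    (∀ (T : Theory) (d : ℕ) (j : ℤ), j ≤ 1 - d →
      ((∀ X : Sch ℤ, FT True X → topologicalKrullDim X.left ≤ d → AddGroup.FG (T.H j X)) ↔
        ∀ (m : ℕ) (M : Matroid (Fin 4 ⊕ Fin m)), SmoothModZ d M →
          AddGroup.FG (T.H j (modS ℤ M)))) ∧
    ∀ (T : Theory) (d : ℕ),
      (∀ j : ℤ, j ≤ 1 - d → ∀ (m : ℕ) (M : Matroid (Fin 4 ⊕ Fin m)), SmoothModZ d M →
        AddGroup.FG (T.H j (modS ℤ M))) →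
      ∀ X : Sch ℤ, IsProper X.hom → IsRegular X d → ∀ i : ℤ, i ≤ d + 1 →
        AddGroup.FG (T.M d i X) := by
  refine ⟨fun X d hp hr => ?_, fun T d j _ => config_iff_smoothZ (cut_degree T j) d,
    fun T d h X hp hr i hi => ?_⟩
  · obtain ⟨L, hL, h⟩ := config_listZ (sep := True) X (ft_of_proper hp)
    rw [hr.dim] at hL
    exact ⟨L, hL, fun T i _ hM => fg_of_cycle T (ft_of_proper hp) hr i (h _ (cut_degree T _) hM)⟩
  · refine fg_of_cycle T (ft_of_proper hp) hr i ?_
    refine (config_iff_smoothZ (cut_degree T (i - 2 * d)) d).2 (h _ (by omega)) X
      (ft_of_proper hp) ?_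
    rw [hr.dim]

end Pool.Agent.Results.MP_b197b4_nt.PlanarConfigurations
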