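import Pool.Agent.Helper79.UN.AB

set_option autoImplicit false

/-!
Q1 for `d = 2` and `i = 2`: a uniform bound for the number of pairs of functions of bounded degree with an
unramified symbol, for all curves over all fields of characteristic zero.

Let `𝒳` be a proper regular arithmetic surface whose generic fibre `X` is a smooth projective curve over a
number field `K`, with function field `L`. If `H²(𝒳_et, ℤ(2))` is finitely generated then
`H²(𝒳_et, ℤ(2)) ⊗ ℚ = H²(𝒳, ℚ(2))` is of finite dimension. This is a subspace of `H²(X, ℚ(2))`, which by
localization and Matsumoto's theorem is the space of the elements of `K_2^M(L) ⊗ ℚ` whose tame symbols at the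
closed points of `X`, that is at the discrete valuations of `L` which are trivial on `K`, vanish. It is not
known that one of these spaces is of finite dimension if the genus of `X` is positive.

**Theorem.** (a) For all `D` and `N` there is a number `B(N, D)` such that for **every** field `K` of
characteristic zero and **every** smooth projective curve `X` over `K`, of any genus, there are at most `B(N, D)`
pairs `(f, g)` of non-constant functions of degree at most `D` on `X` such that the tame symbols of `{f, g}` are of
order dividing `N` (for `N = 1`: `{f, g} ∈ H⁰(X, K_2)`) and the function field `K(f, g)` is of genus at least two.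

(b) For all `n` and `D` there is a number `B(n, D)` such that for every number field `K` of degree at most `n` and
every smooth projective curve `X` over `K`, of any genus, there are at most `B(n, D)` pairs `(f, g)` of
non-constant functions of degree at most `D` on `X` such that the symbol `{f, g} ∈ K_2^M(L) ⊗ ℚ` is unramified and
the function field `K(f, g)` is of genus at least two. More generally, for every prime number `p` there is such a
bound `B(p, n, D)` for the curves over all number fields `K`, *of any degree*, which have a place over `p` of local
degree at most `n` (for instance over all number fields in which `p` splits completely, with `n = 1`), and even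
over all subfields `K` of extensions of `ℚ_p` of degree at most `n`. Indeed (a) applies to all fields `K` of
characteristic zero whose roots of unity of degree at most `m` over `K` are of order at most `R(m)`, for all `m`,
for a given function `R : ℕ → ℕ`.

(There is no condition on the zeros and poles of the functions, nor on the field of constants of `L`. The
bound for the classes of the symbols modulo constants, in every genus, is our theorem `UniformBound` of
MP_15b3df_nt. Here the pairs of functions themselves are counted. If `X` is of genus at least two this is also
a uniform version of the theorem of de Franchis for the maps of bounded degree from `X` to the curves of genus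
at least two with an unramified symbol.)

The proof: (1) *rigidity*: let `k ⊂ k'` be algebraically closed fields, `L₀ / k` a function field of one
variable and `f, g` in the function field `L'` of the constant curve over `k'`, not both in `k'`, with
`{f, g}` unramified over `k'`; then `f` and `g` are algebraically dependent over `k`. Indeed, for `k'` of
transcendence degree one the form `dlog f ∧ dlog g` is a sum of products of regular differentials of two
curves; if `f` and `g` were independent then over the algebraic closure of `k(g)` the differential `dlog f`
would be regular at all places, hence zero as its residues are integers. (2) The theorem of de Franchis for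
constant curves: if `k(f, g)` is of genus at least two then it is contained in `L₀`. (3) An infinite family of
pairs of bounded degree on one curve has a limit in an ultrapower, a pair as in (1) which is not defined over
`k`: a contradiction to (2). (4) *Uniformity*: let `L_i / k_i` be function fields of one variable over
algebraically closed fields (of arbitrary genus) and `f_i`, `g_i` functions of degree at most `D`, with the
limits `f`, `g` in the ultraproduct `E / k`. The relative algebraic closure `M` of `k(f)` in `E` is a function
field of one variable; it contains the limits of all families of functions of degree at most `D`. Every place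
of `M` is the limit of places of the `L_i`, with ramification bounded by `D`, hence the tame symbols of
`{f, g}` on `M` are of bounded order. If the fields `k_i(f_i, g_i)` are of genus at least two then so is
`k(f, g)`: otherwise it would be generated by `u` and `v` with `v² = u³ + p u + q`, and then the same would be
true for almost all `k_i(f_i, g_i)`. So (3) for `M` gives the bound. (5) In case (b) the orders of the
tame symbols are bounded, since they are roots of unity of degree at most `D` over `K`.
-/

namespace Pool.Agent.Results.MP_b197b4_nt.UniformPairs

open scoped WithZero
open IntermediateField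
open Pool.Agent.TH826.MK (KQ symb unitPart)

universe u

/-- `L` is a function field of one variable over `K`. -/
def IsFunctionField (K L : Type*) [Field K] [Field L] [Algebra K L] : Prop :=
  ∃ x : L, Transcendental K x ∧ FiniteDimensional K⟮x⟯ L

/-- The normalized discrete valuations of `L` which are trivial on `K` (the closed points of the smooth
projective curve with function field `L`). -/
def IsPoint (K : Type*) {L : Type*} [Field K] [Field L] [Algebra K L] (v : Valuation L ℤᵐ⁰) : Prop :=
  Function.Surjective v ∧ ∀ x : K, x ≠ 0 → v (algebraMap K L x) = 1

/-- The symbol `{f, g}` in `K_2^M(L) ⊗ ℚ` is unramified over `K`: its tame symbols at all points vanish.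
(`unitPart v 2` is the subspace generated by the symbols `{a, b}` with `v(a) = v(b) = 1`; it is the kernel of
the tame symbol.) -/
def UnramifiedSymbol (K : Type*) {L : Type*} [Field K] [Field L] [Algebra K L] (f g : Lˣ) : Prop :=
  ∀ v : Valuation L ℤᵐ⁰, IsPoint K v → symb ![f, g] ∈ unitPart v 2

/-- The differential `h dx` is regular at all points; here `d` is the derivation `d/dx`. (At a point with the
uniformizer `z` one has `h dx = (h / (dz/dx)) dz`.) -/
def RegularDifferential (K : Type*) {M : Type*} [Field K] [Field M] [Algebra K M] (d : Derivation ℤ M M) (h : M) :
    Prop :=
  ∀ w : Valuation M ℤᵐ⁰, IsPoint K w → ∀ z : M, w z = WithZero.exp (-1 : ℤ) → w h ≤ w (d z)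

/-- The function field `M` over `K` (of characteristic zero) is of genus at least two: there are two regular
differentials `h₁ dx` and `h₂ dx` whose quotient `h₁ / h₂` is not constant, i.e. which are linearly
independent over the field of constants. -/
def GenusAtLeastTwo (K M : Type*) [Field K] [Field M] [Algebra K M] : Prop :=
  ∃ (x : M) (d : Derivation ℤ M M) (h₁ h₂ : M), Transcendental K x ∧ (∀ c : K, d (algebraMap K M c) = 0) ∧
    d x = 1 ∧ Transcendental K (h₁ / h₂) ∧ RegularDifferential K d h₁ ∧ RegularDifferential K d h₂

/-- For all `m` the roots of unity of degree at most `m` over `K` are of order at most `R m`. -/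
def RootsOfUnityLE (K : Type*) [Field K] (R : ℕ → ℕ) : Prop :=
  ∀ (m N : ℕ) (ζ : AlgebraicClosure K), 0 < N → IsPrimitiveRoot ζ N → (minpoly K ζ).natDegree ≤ m → N ≤ R m

/-- All algebraic numbers in `K` are of degree at most `n` over `ℚ` (for instance, `K` is a number field of
degree at most `n`, or a finitely generated extension of such a field in which it is algebraically closed). -/
def AlgebraicNumbersLE (K : Type*) [Field K] [CharZero K] (n : ℕ) : Prop :=
  ∀ x : K, IsAlgebraic ℚ x → (minpoly ℚ x).natDegree ≤ n

/-- `K` can be embedded in an extension of `ℚ_p` of degree at most `n` (for a number field `K`: there is a place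
of `K` over `p` of local degree at most `n`). -/
def LocalDegreeLE (K : Type*) [Field K] (p n : ℕ) [Fact p.Prime] : Prop :=
  ∃ E : IntermediateField ℚ_[p] (AlgebraicClosure ℚ_[p]), FiniteDimensional ℚ_[p] E ∧
    Module.finrank ℚ_[p] E ≤ n ∧ Nonempty (K →+* E)

/-- The tame symbol of `{f, g}` at `v` (or its inverse), before the reduction to the residue field. -/
noncomputable def tameSymbol {L : Type*} [Field L] (v : Valuation L ℤᵐ⁰) (f g : L) : L :=
  (-1) ^ (WithZero.log (v f) * WithZero.log (v g)) * f ^ WithZero.log (v g) / g ^ WithZero.log (v f)

/-- The tame symbols of `{f, g}` at all points are of order dividing `N`. -/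
def TameOrderDvd (K : Type*) {L : Type*} [Field K] [Field L] [Algebra K L] (N : ℕ) (f g : Lˣ) : Prop :=
  ∀ v : Valuation L ℤᵐ⁰, IsPoint K v → v (tameSymbol v (f : L) (g : L) ^ N - 1) < 1

/-- The tame symbols of `{f, g}` are of order dividing `N`; or they are of finite order, i.e. `{f, g}` is
unramified in `K_2^M(L) ⊗ ℚ`, and for all `m` the roots of unity of degree at most `m` over `K` are of order at
most `R m`. -/
def TameBounded (K : Type*) {L : Type*} [Field K] [Field L] [Algebra K L] (N : ℕ) (R : ℕ → ℕ) (f g : Lˣ) : Prop :=
  TameOrderDvd K N f g ∨ RootsOfUnityLE K R ∧ UnramifiedSymbol K f g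

/-- The pairs of non-constant functions `f, g ∈ L` with `[L : K(f)] ≤ D` and `[L : K(g)] ≤ D` and the property `Q`
such that the field `K(f, g)` is of genus at least two. -/
def Pairs (K : Type*) {L : Type*} [Field K] [Field L] [Algebra K L] (D : ℕ) (Q : Lˣ → Lˣ → Prop) :
    Set (Lˣ × Lˣ) :=
  {p | Transcendental K (p.1 : L) ∧ Module.finrank K⟮(p.1 : L)⟯ L ≤ D ∧
      Transcendental K (p.2 : L) ∧ Module.finrank K⟮(p.2 : L)⟯ L ≤ D ∧ Q p.1 p.2 ∧
      GenusAtLeastTwo K (IntermediateField.adjoin K {(p.1 : L), (p.2 : L)})}

/-- (1) For all `N ≥ 1`, `R : ℕ → ℕ` and `D` there is a number `B` such that for every field `K` of characteristic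
zero and every function field `L` of one variable over `K` there are at most `B` pairs of non-constant functions
`f, g ∈ L` with `[L : K(f)] ≤ D` and `[L : K(g)] ≤ D` for which the field `K(f, g)` is of genus at least two and the
tame symbols of `{f, g}` are of order dividing `N`, or `{f, g} ∈ K_2^M(L) ⊗ ℚ` is unramified over `K` and for all `m`
the roots of unity of degree at most `m` over `K` are of order at most `R m`.
(2) For all `n` there is a function `R` such that all fields `K` whose algebraic numbers are of degree at most `n`
have this property.
(3) For all `p` and `n` there is a function `R` such that all fields `K` which can be embedded in an extension of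
`ℚ_p` of degree at most `n` have this property. -/
theorem result :
    (∀ (N : ℕ) (R : ℕ → ℕ) (D : ℕ), 0 < N → ∃ B : ℕ, ∀ (K L : Type u) [Field K] [CharZero K] [Field L]
      [Algebra K L], IsFunctionField K L → (Pairs K (L := L) D (TameBounded K N R)).encard ≤ B) ∧
    (∀ n : ℕ, ∃ R : ℕ → ℕ, ∀ (K : Type u) [Field K] [CharZero K], AlgebraicNumbersLE K n → RootsOfUnityLE K R) ∧
    (∀ (p n : ℕ) [Fact p.Prime], ∃ R : ℕ → ℕ, ∀ (K : Type u) [Field K],
      LocalDegreeLE K p n → RootsOfUnityLE K R) := by
  refine ⟨fun N R D hN => ?_, fun n => ?_, fun p n _ => ?_⟩
  · obtain ⟨B, hB⟩ := Pool.Agent.Helper79.UN.uniform_pairs_rb.{u} D (R D).factorial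
    obtain ⟨B', hB'⟩ := Pool.Agent.Helper79.UN.uniform_pairs_abs.{u} D hN
    refine ⟨B' + B, fun K L _ _ _ _ hL => ?_⟩
    by_cases hn : RootsOfUnityLE K R
    · refine (Set.encard_le_encard (t := _ ∪ _) ?_).trans ((Set.encard_union_le _ _).trans (le_trans
        (add_le_add (hB' K L hL) (hB K L (Pool.Agent.Helper79.UN.few_rb hn D) hL)) (by push_cast; rfl)))
      rintro ⟨f, g⟩ ⟨h1, h2, h3, h4, hun | ⟨-, hun⟩, h5⟩
      · exact Or.inl ⟨h1, h2, h3, h4, hun, h5⟩
      · exact Or.inr ⟨h1, h2, h3, h4, hun, h5⟩
    · refine (Set.encard_le_encard ?_).trans ((hB' K L hL).trans (by exact_mod_cast Nat.le_add_right _ _))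
      rintro ⟨f, g⟩ ⟨h1, h2, h3, h4, hun | ⟨h, -⟩, h5⟩
      · exact ⟨h1, h2, h3, h4, hun, h5⟩
      · exact absurd h hn
  · exact ⟨_, fun K _ _ hK => Pool.Agent.Helper79.UN.few_of_deg hK⟩
  · exact ⟨_, fun K _ hK => Pool.Agent.Helper79.UN.few_of_loc hK⟩

end Pool.Agent.Results.MP_b197b4_nt.UniformPairs
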